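import Pool.Graph.R_seed8.Y648.GR.D

set_option autoImplicit false

/-! # The square-sum form of smoothness -/

open scoped InnerProductSpace

namespace Pool.Agent.KS6_82.WD

open Pool.Agent.Y648.GR
open Pool.Agent.Helper415.DGA (E ee nn inner_ee inner_nn inner_en inner_ne norm_nn norm_ee supn
  le_supn supn_le supn_nonneg supn_le_norm supn_add supn_smul supn_neg)

/-- the constant of the square-sum form of smoothness of the library's space -/
noncomputable def kq (q : ℕ) : ℝ := (1 + cc q) ^ 2 / (1 - 2 * cc q)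

lemma kq_ge {q : ℕ} (hq : 4 ≤ q) : 1 ≤ kq q := by
  have h1 := cc_pos hq
  have h2 := cc_le hq
  unfold kq
  rw [le_div_iff₀ (by linarith)]
  nlinarith

lemma kq_le {q : ℕ} (hq : 4 ≤ q) : kq q ≤ 1 + 9 * cc q := by
  have h1 := cc_pos hq
  have h2 := cc_le hq
  unfold kq
  rw [div_le_iff₀ (by linarith)]
  nlinarith

/-- uniform convexity of `N` in the square-sum form -/
lemma N_sq {q : ℕ} (hq : 4 ≤ q) (a b : E) :
    N q (a + b) ^ 2 / 2 + N q (a - b) ^ 2 / (2 * kq q) ≤ N q a ^ 2 + N q b ^ 2 := by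
  have hc0 := cc_pos hq
  have hc1 := cc_le hq
  have hk := kq_ge hq
  set c := cc q with hc
  set A := ‖a‖ with hA
  set B := ‖b‖ with hB
  set s := supn a with hs
  set t := supn b with ht
  have hA0 : 0 ≤ A := norm_nonneg a
  have hB0 : 0 ≤ B := norm_nonneg b
  have hs0 : 0 ≤ s := supn_nonneg a
  have ht0 : 0 ≤ t := supn_nonneg b
  set P := ‖a + b‖ with hP
  set Q := ‖a - b‖ with hQ
  have hP0 : 0 ≤ P := norm_nonneg _
  have hQ0 : 0 ≤ Q := norm_nonneg _
  have hPs : P ≤ A + B := norm_add_le a b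
  have hpar : P ^ 2 + Q ^ 2 = 2 * (A ^ 2 + B ^ 2) := by
    rw [hP, hQ, hA, hB, norm_add_sq_real, norm_sub_sq_real]; ring
  have hNP : N q (a + b) ≤ P + c * (s + t) := by
    unfold N
    have h2 := mul_le_mul_of_nonneg_left (supn_add a b) hc0.le
    rw [← hc, ← hP]
    linarith
  have hNP0 : 0 ≤ N q (a + b) := N_nonneg q _
  have hNP2 : N q (a + b) ^ 2 ≤ (P + c * (s + t)) ^ 2 := pow_le_pow_left₀ hNP0 hNP 2
  have hNQ : N q (a - b) ^ 2 ≤ (1 + c) ^ 2 * Q ^ 2 := by
    have := pow_le_pow_left₀ (N_nonneg q _) (N_le q (a - b)) 2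
    rwa [mul_pow] at this
  have hNA : N q a = A + c * s := rfl
  have hNB : N q b = B + c * t := rfl
  have hAB : |A - B| ≤ Q := by rw [hA, hB, hQ]; exact abs_norm_sub_norm_le a b
  have hst : |s - t| ≤ Q := by
    have h5 : supn (a - b) ≤ Q := supn_le_norm _
    have e1 : supn a ≤ supn (a - b) + supn b := by
      have := supn_add (a - b) b
      rwa [sub_add_cancel] at this
    have e2 : supn b ≤ supn (a - b) + supn a := by
      have := supn_add (-(a - b)) a
      rw [supn_neg] at this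
      have e : -(a - b) + a = b := by abel
      rwa [e] at this
    rw [abs_le]; constructor <;> linarith
  have hmix : -(Q ^ 2) ≤ (A - B) * (s - t) := by
    have h1 : |(A - B) * (s - t)| ≤ Q * Q := by
      rw [abs_mul]; exact mul_le_mul hAB hst (abs_nonneg _) hQ0
    have h2 := neg_abs_le ((A - B) * (s - t))
    nlinarith
  have hkey : (1 - 2 * c) / 2 * Q ^ 2 ≤ N q a ^ 2 + N q b ^ 2 - (P + c * (s + t)) ^ 2 / 2 := by
    rw [hNA, hNB]
    have h1 : P * (s + t) ≤ (A + B) * (s + t) := mul_le_mul_of_nonneg_right hPs (by linarith)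
    have h2 : c * (P * (s + t)) ≤ c * ((A + B) * (s + t)) := mul_le_mul_of_nonneg_left h1 hc0.le
    have h3 : c * (-(Q ^ 2)) ≤ c * ((A - B) * (s - t)) := mul_le_mul_of_nonneg_left hmix hc0.le
    nlinarith [sq_nonneg (c * (s - t))]
  have h9 : N q (a - b) ^ 2 / (2 * kq q) ≤ (1 - 2 * c) / 2 * Q ^ 2 := by
    unfold kq
    rw [← hc]
    rw [div_le_iff₀ (by
      have : 0 < 1 - 2 * c := by linarith
      positivity)]
    have h10 : (1 - 2 * c) / 2 * Q ^ 2 * (2 * ((1 + c) ^ 2 / (1 - 2 * c))) = (1 + c) ^ 2 * Q ^ 2 := by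
      have : (1 - 2 * c) ≠ 0 := by linarith
      field_simp
    rw [h10]; exact hNQ
  linarith

/-- smoothness of the dual in the square-sum form -/
lemma sq_smooth0 {q : ℕ} (hq : 4 ≤ q) (x y : X0 q) :
    ‖x + y‖ ^ 2 + ‖x - y‖ ^ 2 ≤ 2 * ‖x‖ ^ 2 + 2 * kq q * ‖y‖ ^ 2 := by
  have hk := kq_ge hq
  set k := kq q with hkdef
  set φ := x + y with hφ
  set ψ := x - y with hψ
  set S := ‖φ‖ ^ 2 + ‖ψ‖ ^ 2 with hS
  set R := 2 * ‖x‖ ^ 2 + 2 * k * ‖y‖ ^ 2 with hR
  have hS0 : 0 ≤ S := by positivity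
  have hR0 : 0 ≤ R := by positivity
  have hmain : S ≤ Real.sqrt R * Real.sqrt S := by
    apply le_of_forall_pos_lt_add
    intro ε hε
    set M := ‖φ‖ + ‖ψ‖ + 1 with hM
    have hM0 : 0 < M := by positivity
    obtain ⟨y1, hy1, hy2⟩ := exists_unit q φ (‖φ‖ - ε / M) (by
      have : 0 < ε / M := by positivity
      linarith)
    obtain ⟨z1, hz1, hz2⟩ := exists_unit q ψ (‖ψ‖ - ε / M) (by
      have : 0 < ε / M := by positivity
      linarith)
    set a : Z q := ‖φ‖ • y1 with ha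
    set b : Z q := ‖ψ‖ • z1 with hb
    have hna : ‖a‖ = ‖φ‖ := by rw [ha, norm_smul, hy1, norm_norm, mul_one]
    have hnb : ‖b‖ = ‖ψ‖ := by rw [hb, norm_smul, hz1, norm_norm, mul_one]
    have h1 : ‖φ‖ * (‖φ‖ - ε / M) + ‖ψ‖ * (‖ψ‖ - ε / M) ≤ φ a + ψ b := by
      rw [ha, hb, map_smul, map_smul, smul_eq_mul, smul_eq_mul]
      have e1 := mul_le_mul_of_nonneg_left hy2.le (norm_nonneg φ)
      have e2 := mul_le_mul_of_nonneg_left hz2.le (norm_nonneg ψ)
      linarith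
    have h2 : φ a + ψ b = x (a + b) + y (a - b) := by
      rw [hφ, hψ]
      simp only [add_apply, sub_apply, map_add, map_sub]
      ring
    have h3 : x (a + b) ≤ ‖x‖ * ‖a + b‖ := (le_abs_self _).trans (x.le_opNorm _)
    have h4 : y (a - b) ≤ ‖y‖ * ‖a - b‖ := (le_abs_self _).trans (y.le_opNorm _)
    have h5 : ‖a + b‖ ^ 2 / 2 + ‖a - b‖ ^ 2 / (2 * k) ≤ S := by
      have := N_sq hq (toE q a) (toE q b)
      rw [← map_add, ← map_sub, ← norm_Z, ← norm_Z, ← norm_Z, ← norm_Z, hna, hnb] at this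
      exact this
    have h6 : ‖x‖ * ‖a + b‖ + ‖y‖ * ‖a - b‖ ≤ Real.sqrt R * Real.sqrt S := by
      rw [← Real.sqrt_mul hR0]
      apply Real.le_sqrt_of_sq_le
      have h7 : (‖x‖ * ‖a + b‖ + ‖y‖ * ‖a - b‖) ^ 2 ≤
          R * (‖a + b‖ ^ 2 / 2 + ‖a - b‖ ^ 2 / (2 * k)) := by
        have hk0 : 0 < k := by linarith
        set p := ‖a + b‖
        set r := ‖a - b‖
        set X := ‖x‖
        set Y := ‖y‖
        have e1 : R * (p ^ 2 / 2 + r ^ 2 / (2 * k)) =
            X ^ 2 * p ^ 2 + Y ^ 2 * r ^ 2 + (X ^ 2 * r ^ 2 / k + k * (Y ^ 2 * p ^ 2)) := by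
          rw [hR]; field_simp; ring
        rw [e1]
        have e2 : 2 * (X * r * (Y * p)) ≤ X ^ 2 * r ^ 2 / k + k * (Y ^ 2 * p ^ 2) := by
          have : 0 ≤ (X * r - k * (Y * p)) ^ 2 / k := by positivity
          have e3 : (X * r - k * (Y * p)) ^ 2 / k =
              X ^ 2 * r ^ 2 / k + k * (Y ^ 2 * p ^ 2) - 2 * (X * r * (Y * p)) := by
            field_simp; ring
          rw [e3] at this
          linarith
        nlinarith
      exact h7.trans (mul_le_mul_of_nonneg_left h5 hR0)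
    have h8 : (‖φ‖ + ‖ψ‖) * (ε / M) < ε := by
      rw [mul_div_assoc', div_lt_iff₀ hM0]
      nlinarith
    have h9 : S = ‖φ‖ * (‖φ‖ - ε / M) + ‖ψ‖ * (‖ψ‖ - ε / M) + (‖φ‖ + ‖ψ‖) * (ε / M) := by
      rw [hS]; ring
    linarith
  -- conclude
  have h1 : S = Real.sqrt S * Real.sqrt S := (Real.mul_self_sqrt hS0).symm
  have h2 : R = Real.sqrt R * Real.sqrt R := (Real.mul_self_sqrt hR0).symm
  rcases eq_or_lt_of_le (Real.sqrt_nonneg S) with h | h
  · rw [h1, ← h]; nlinarith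
  · have h3 : Real.sqrt S ≤ Real.sqrt R := by
      by_contra hlt
      push Not at hlt
      have : Real.sqrt R * Real.sqrt S < Real.sqrt S * Real.sqrt S :=
        mul_lt_mul_of_pos_right hlt h
      linarith
    exact (Real.sqrt_le_sqrt_iff hR0).1 h3

/-- smoothness of the library's space in the square-sum form -/
lemma sq_smoothX {q : ℕ} (hq : 4 ≤ q) (x y : XX q) :
    ‖x + y‖ ^ 2 + ‖x - y‖ ^ 2 ≤ 2 * ‖x‖ ^ 2 + 2 * kq q * ‖y‖ ^ 2 := by
  have h := sq_smooth0 hq (J q (inc q x)) (J q (inc q y))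
  rw [norm_XX, norm_XX, norm_XX, norm_XX, map_add, map_sub, map_add, map_sub]
  exact h

end Pool.Agent.KS6_82.WD
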