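import Pool.Agent.KS6_82.WD.A

set_option autoImplicit false

/-! # Definitions, general facts, and sums with the library's space -/

open Filter Topology

universe u

namespace Pool.Agent.KS6_82.WD

/-- The modulus of smoothness of `X`. -/
noncomputable def modulus (X : Type u) [NormedAddCommGroup X] [NormedSpace ℝ X] (u : ℝ) : ℝ :=
  sSup {v : ℝ | ∃ x y : X, ‖x‖ = 1 ∧ ‖y‖ = 1 ∧ v = (‖x + u • y‖ + ‖x - u • y‖) / 2 - 1}

/-- The modulus of smoothness of `X` has power type `q`. -/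
def PowerType (X : Type u) [NormedAddCommGroup X] [NormedSpace ℝ X] (q : ℝ) : Prop :=
  ∃ γ : ℝ, 0 < γ ∧ ∀ u : ℝ, 0 < u → modulus X u ≤ γ * u ^ q

/-- `X` is uniformly smooth. -/
def UniformlySmooth (X : Type u) [NormedAddCommGroup X] [NormedSpace ℝ X] : Prop :=
  Tendsto (fun u : ℝ => modulus X u / u) (𝓝[>] 0) (𝓝 0)

section

variable {X : Type u} [NormedAddCommGroup X] [NormedSpace ℝ X]

/-- `D` is a dictionary: `‖g‖ ≤ 1` and `-g ∈ D` for `g ∈ D`, and the linear span of `D` is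
dense. -/
structure IsDictionary (D : Set X) : Prop where
  norm_le : ∀ g ∈ D, ‖g‖ ≤ 1
  symm : ∀ g ∈ D, -g ∈ D
  dense_span : Dense ((Submodule.span ℝ D : Submodule ℝ X) : Set X)

/-- The quantity `‖F‖_D`, the supremum of `F` over `D`. -/
noncomputable def dictNorm (D : Set X) (F : X →L[ℝ] ℝ) : ℝ := sSup (F '' D)

/-- `F` is a norming functional of `f`. -/
def IsNorming (F : X →L[ℝ] ℝ) (f : X) : Prop := ‖F‖ = 1 ∧ F f = ‖f‖

/-- One step of the WDGA(`t`), from the residual `f` to the residual `f'`. -/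
def Step (t : ℝ) (D : Set X) (f f' : X) : Prop :=
  ∃ (F : X →L[ℝ] ℝ) (φ : X) (a : ℝ), IsNorming F f ∧ φ ∈ D ∧ t * dictNorm D F ≤ F φ ∧
    (∀ b : ℝ, ‖f - a • φ‖ ≤ ‖f - b • φ‖) ∧ f' = f - a • φ

/-- `r` is the sequence of residuals of an admissible run of the WDGA(`t`) started at `f`; the
algorithm stops at a zero residual. -/
def IsRun (t : ℝ) (D : Set X) (f : X) (r : ℕ → X) : Prop :=
  r 0 = f ∧ ∀ m, (r m = 0 → r (m + 1) = 0) ∧ (r m ≠ 0 → Step t D (r m) (r (m + 1)))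

/-- The WDGA(`t`) with dictionary `D` converges for `f`. -/
def ConvergesFor (t : ℝ) (D : Set X) (f : X) : Prop :=
  ∀ r : ℕ → X, IsRun t D f r → Tendsto (fun m => ‖r m‖) atTop (𝓝 0)

end

/-- `X` has a dictionary of unit vectors, a unit vector `f`, and one sequence `r` of residuals of
norms at least `1 - ε` which is an admissible run of the WDGA(`t`) started at `f` for all
`t ∈ (0, 1]` at once. -/
def Fails (ε : ℝ) (X : Type u) [NormedAddCommGroup X] [NormedSpace ℝ X] : Prop :=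
  ∃ D : Set X, IsDictionary D ∧ (∀ g ∈ D, ‖g‖ = 1) ∧ ∃ (f : X) (r : ℕ → X), ‖f‖ = 1 ∧
    (∀ m, 1 - ε ≤ ‖r m‖) ∧ ∀ t : ℝ, 0 < t → t ≤ 1 → IsRun t D f r ∧ ¬ ConvergesFor t D f

/-- the square-sum form of power type two -/
def SqSmooth (κ : ℝ) (X : Type u) [NormedAddCommGroup X] : Prop :=
  ∀ x y : X, ‖x + y‖ ^ 2 + ‖x - y‖ ^ 2 ≤ 2 * ‖x‖ ^ 2 + 2 * κ * ‖y‖ ^ 2

section general

variable {X : Type u} [NormedAddCommGroup X] [NormedSpace ℝ X]

lemma modulus_bdd {u : ℝ} (hu : 0 < u) :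
    BddAbove {v : ℝ | ∃ x y : X, ‖x‖ = 1 ∧ ‖y‖ = 1 ∧ v = (‖x + u • y‖ + ‖x - u • y‖) / 2 - 1} := by
  refine ⟨u, ?_⟩
  rintro v ⟨x, y, hx, hy, rfl⟩
  have h1 := norm_add_le x (u • y)
  have h2 := norm_sub_le x (u • y)
  rw [norm_smul, hx, hy, Real.norm_eq_abs, abs_of_pos hu] at h1 h2
  linarith

lemma le_modulus {u : ℝ} (hu : 0 < u) {x y : X} (hx : ‖x‖ = 1) (hy : ‖y‖ = 1) :
    (‖x + u • y‖ + ‖x - u • y‖) / 2 - 1 ≤ modulus X u :=
  le_csSup (modulus_bdd hu) ⟨x, y, hx, hy, rfl⟩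

/-- the homogeneous form of the definition of the modulus -/
lemma sum_le_modulus {x y : X} (hx : x ≠ 0) (hy : y ≠ 0) :
    ‖x + y‖ + ‖x - y‖ ≤ 2 * ‖x‖ * (1 + modulus X (‖y‖ / ‖x‖)) := by
  have hx0 : 0 < ‖x‖ := norm_pos_iff.2 hx
  have hy0 : 0 < ‖y‖ := norm_pos_iff.2 hy
  have h := le_modulus (X := X) (u := ‖y‖ / ‖x‖) (div_pos hy0 hx0) (x := ‖x‖⁻¹ • x)
    (y := ‖y‖⁻¹ • y) (by rw [norm_smul, norm_inv, norm_norm, inv_mul_cancel₀ hx0.ne'])
    (by rw [norm_smul, norm_inv, norm_norm, inv_mul_cancel₀ hy0.ne'])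
  have e1 : (‖y‖ / ‖x‖) • ‖y‖⁻¹ • y = ‖x‖⁻¹ • y := by
    rw [smul_smul]; congr 1; field_simp
  rw [e1, ← smul_add, ← smul_sub, norm_smul, norm_smul, norm_inv, norm_norm] at h
  have h2 : ‖x‖⁻¹ * ‖x + y‖ + ‖x‖⁻¹ * ‖x - y‖ ≤ 2 * (1 + modulus X (‖y‖ / ‖x‖)) := by linarith
  have h3 := mul_le_mul_of_nonneg_left h2 hx0.le
  have e2 : ‖x‖ * (‖x‖⁻¹ * ‖x + y‖ + ‖x‖⁻¹ * ‖x - y‖) = ‖x + y‖ + ‖x - y‖ := by
    field_simp
  rw [e2] at h3
  linarith

lemma modulus_nonneg (u : ℝ) : 0 ≤ modulus X u := by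
  apply Real.sSup_nonneg
  rintro v ⟨x, y, hx, hy, rfl⟩
  have h1 : ‖(x + u • y) + (x - u • y)‖ ≤ ‖x + u • y‖ + ‖x - u • y‖ := norm_add_le _ _
  have h2 : (x + u • y) + (x - u • y) = (2:ℝ) • x := by rw [two_smul]; abel
  rw [h2, norm_smul, hx, Real.norm_eq_abs, abs_two] at h1
  linarith

lemma SqSmooth.modulus_le {κ : ℝ} (hκ : 1 ≤ κ) (h : SqSmooth κ X) {u : ℝ} (hu : 0 < u) :
    modulus X u ≤ Real.sqrt (1 + κ * u ^ 2) - 1 := by
  have h1 : 1 ≤ Real.sqrt (1 + κ * u ^ 2) := by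
    rw [Real.one_le_sqrt]
    have : 0 ≤ κ * u ^ 2 := by positivity
    linarith
  apply Real.sSup_le
  · rintro v ⟨x, y, hx, hy, rfl⟩
    have h2 := h x (u • y)
    rw [norm_smul, hx, hy, Real.norm_eq_abs, abs_of_pos hu] at h2
    have h3 : (‖x + u • y‖ + ‖x - u • y‖) / 2 ≤ Real.sqrt (1 + κ * u ^ 2) := by
      apply Real.le_sqrt_of_sq_le
      nlinarith [sq_nonneg (‖x + u • y‖ - ‖x - u • y‖)]
    linarith
  · linarith

lemma SqSmooth.powerType {κ : ℝ} (hκ : 1 ≤ κ) (h : SqSmooth κ X) : PowerType X 2 := by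
  refine ⟨κ, by linarith, fun u hu => (h.modulus_le hκ hu).trans ?_⟩
  rw [Real.rpow_two]
  have h4 : Real.sqrt (1 + κ * u ^ 2) ≤ 1 + κ * u ^ 2 := by
    rw [Real.sqrt_le_left (by positivity)]
    have : 0 ≤ κ * u ^ 2 := by positivity
    nlinarith
  linarith

lemma PowerType.uniformlySmooth (h : PowerType X 2) : UniformlySmooth X := by
  obtain ⟨γ, hγ, h⟩ := h
  have h1 : Tendsto (fun u : ℝ => γ * u) (𝓝[>] 0) (𝓝 0) := by
    have : Tendsto (fun u : ℝ => γ * u) (𝓝 0) (𝓝 (γ * 0)) := (continuous_const_mul γ).tendsto 0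
    rw [mul_zero] at this
    exact this.mono_left nhdsWithin_le_nhds
  apply squeeze_zero' _ _ h1
  · filter_upwards [self_mem_nhdsWithin] with u hu
    exact div_nonneg (modulus_nonneg u) (le_of_lt hu)
  · filter_upwards [self_mem_nhdsWithin] with u hu
    have hu' : (0:ℝ) < u := hu
    rw [div_le_iff₀ hu']
    have := h u hu'
    rw [Real.rpow_two] at this
    linarith [this]

/-- power type two implies the square-sum form -/
lemma PowerType.sqSmooth (h : PowerType X 2) : ∃ κ : ℝ, 1 ≤ κ ∧ SqSmooth κ X := by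
  obtain ⟨γ, hγ, h⟩ := h
  refine ⟨(1 + γ) ^ 2 + 4, by nlinarith, fun x y => ?_⟩
  rcases eq_or_ne y 0 with rfl | hy
  · simp; linarith
  rcases eq_or_ne x 0 with rfl | hx
  · simp only [zero_add, zero_sub, norm_neg, norm_zero]
    nlinarith [sq_nonneg ‖y‖]
  have ha : 0 < ‖x‖ := norm_pos_iff.2 hx
  have hb : 0 < ‖y‖ := norm_pos_iff.2 hy
  have h1 := sum_le_modulus hx hy
  have h2 := h (‖y‖ / ‖x‖) (div_pos hb ha)
  rw [Real.rpow_two] at h2
  have h3 : |‖x + y‖ - ‖x - y‖| ≤ 2 * ‖y‖ := by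
    refine (abs_norm_sub_norm_le _ _).trans ?_
    have : x + y - (x - y) = (2:ℝ) • y := by rw [two_smul]; abel
    rw [this, norm_smul, Real.norm_eq_abs, abs_two]
  have h3' : (‖x + y‖ - ‖x - y‖) ^ 2 ≤ 4 * ‖y‖ ^ 2 := by
    have := pow_le_pow_left₀ (abs_nonneg _) h3 2
    rw [sq_abs] at this
    linarith
  have h5 : ‖x + y‖ ≤ ‖x‖ + ‖y‖ := norm_add_le _ _
  have h6 : ‖x - y‖ ≤ ‖x‖ + ‖y‖ := norm_sub_le _ _
  have h7 := norm_nonneg (x + y)
  have h8 := norm_nonneg (x - y)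
  set a := ‖x‖
  set b := ‖y‖
  set p := ‖x + y‖
  set r := ‖x - y‖
  rcases le_total b a with hba | hab
  · have h9 : p + r ≤ 2 * (a + γ * (b ^ 2 / a)) := by
      have e1 : 2 * a * (1 + γ * (b / a) ^ 2) = 2 * (a + γ * (b ^ 2 / a)) := by
        field_simp
      rw [← e1]
      exact h1.trans (mul_le_mul_of_nonneg_left (by linarith) (by positivity))
    have h10 : b ^ 2 / a ≤ b := by
      rw [div_le_iff₀ ha]; nlinarith
    have h11 : (p + r) ^ 2 ≤ (2 * (a + γ * (b ^ 2 / a))) ^ 2 :=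
      pow_le_pow_left₀ (by positivity) h9 2
    have h12 : a * (b ^ 2 / a) = b ^ 2 := by field_simp
    have h13 : 0 ≤ b ^ 2 / a := by positivity
    have h14 : (b ^ 2 / a) ^ 2 ≤ b ^ 2 := pow_le_pow_left₀ h13 h10 2
    have h15 : (a + γ * (b ^ 2 / a)) ^ 2 ≤ a ^ 2 + 2 * γ * b ^ 2 + γ ^ 2 * b ^ 2 := by
      have e2 : (a + γ * (b ^ 2 / a)) ^ 2 =
          a ^ 2 + 2 * γ * (a * (b ^ 2 / a)) + γ ^ 2 * (b ^ 2 / a) ^ 2 := by ring
      rw [e2, h12]
      have := mul_le_mul_of_nonneg_left h14 (sq_nonneg γ)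
      linarith
    nlinarith [sq_nonneg b]
  · have h9 : p ≤ 2 * b := by linarith
    have h10 : r ≤ 2 * b := by linarith
    nlinarith [sq_nonneg a, mul_pos hγ hb, sq_nonneg (b * (1 + γ))]

end general

end Pool.Agent.KS6_82.WD
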