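import Pool.Agent.KS6_82.WD.B

set_option autoImplicit false

/-! # Sums with the library's space -/

open Filter Topology

universe u

namespace Pool.Agent.KS6_82.WD

open Pool.Agent.Y648.GR

section sums

variable {q : ℕ} (Y : Type u) [NormedAddCommGroup Y] [NormedSpace ℝ Y]

/-- the `ℓ₂`-sum of the library's space and `Y` -/
abbrev PX (q : ℕ) (Y : Type u) : Type u := WithLp 2 (XX q × Y)

omit [NormedSpace ℝ Y] in
lemma norm_sq_PX (z : PX q Y) : ‖z‖ ^ 2 = ‖z.fst‖ ^ 2 + ‖z.snd‖ ^ 2 :=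
  WithLp.prod_norm_sq_eq_of_L2 z

lemma sqSmooth_PX (hq : 4 ≤ q) {κ : ℝ} (hκ : kq q ≤ κ) (hY : SqSmooth κ Y) :
    SqSmooth κ (PX q Y) := by
  intro z w
  have h1 := sq_smoothX hq z.fst w.fst
  have h2 := hY z.snd w.snd
  have e1 : ‖z + w‖ ^ 2 = ‖z.fst + w.fst‖ ^ 2 + ‖z.snd + w.snd‖ ^ 2 := by
    rw [norm_sq_PX]; rfl
  have e2 : ‖z - w‖ ^ 2 = ‖z.fst - w.fst‖ ^ 2 + ‖z.snd - w.snd‖ ^ 2 := by
    rw [norm_sq_PX]; rfl
  rw [e1, e2, norm_sq_PX Y z, norm_sq_PX Y w]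
  nlinarith [sq_nonneg ‖w.fst‖]

/-- first embedding -/
noncomputable def i1 (q : ℕ) : XX q →ₗ[ℝ] PX q Y where
  toFun x := WithLp.toLp 2 (x, 0)
  map_add' x y := by
    rw [← WithLp.toLp_add, Prod.mk_add_mk, add_zero]
  map_smul' a x := by
    rw [RingHom.id_apply, ← WithLp.toLp_smul, Prod.smul_mk, smul_zero]

/-- second embedding -/
noncomputable def i2 (q : ℕ) : Y →ₗ[ℝ] PX q Y where
  toFun y := WithLp.toLp 2 (0, y)
  map_add' x y := by
    rw [← WithLp.toLp_add, Prod.mk_add_mk, add_zero]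
  map_smul' a x := by
    rw [RingHom.id_apply, ← WithLp.toLp_smul, Prod.smul_mk, smul_zero]

lemma i1_fst (x : XX q) : (i1 Y q x).fst = x := rfl
lemma i1_snd (x : XX q) : (i1 Y q x).snd = 0 := rfl
lemma i2_fst (y : Y) : (i2 Y q y).fst = 0 := rfl
lemma i2_snd (y : Y) : (i2 Y q y).snd = y := rfl

lemma norm_i1 (x : XX q) : ‖i1 Y q x‖ = ‖x‖ := by
  have h := norm_sq_PX Y (i1 Y q x)
  rw [i1_fst, i1_snd, norm_zero] at h
  have h2 : ‖i1 Y q x‖ ^ 2 = ‖x‖ ^ 2 := by rw [h]; ring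
  exact (pow_left_inj₀ (norm_nonneg _) (norm_nonneg _) two_ne_zero).1 h2

lemma norm_i2 (y : Y) : ‖i2 Y q y‖ = ‖y‖ := by
  have h := norm_sq_PX Y (i2 Y q y)
  rw [i2_fst, i2_snd, norm_zero] at h
  have h2 : ‖i2 Y q y‖ ^ 2 = ‖y‖ ^ 2 := by rw [h]; ring
  exact (pow_left_inj₀ (norm_nonneg _) (norm_nonneg _) two_ne_zero).1 h2

lemma norm_fst_le (z : PX q Y) : ‖z.fst‖ ≤ ‖z‖ := by
  have h := norm_sq_PX Y z
  exact le_of_sq_le_sq (by rw [h]; nlinarith [sq_nonneg ‖z.snd‖]) (norm_nonneg _)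

lemma norm_snd_le (z : PX q Y) : ‖z.snd‖ ≤ ‖z‖ := by
  have h := norm_sq_PX Y z
  exact le_of_sq_le_sq (by rw [h]; nlinarith [sq_nonneg ‖z.fst‖]) (norm_nonneg _)

/-- the dictionary: the library's dictionary and the unit sphere of `Y` -/
def DP (q : ℕ) : Set (PX q Y) := {z | (∃ g ∈ DD q, z = i1 Y q g) ∨ ∃ y : Y, ‖y‖ = 1 ∧ z = i2 Y q y}

lemma DD_norm (hq : 4 ≤ q) : ∀ g ∈ DD q, ‖g‖ = 1 := by
  rintro g ⟨j, rfl | rfl⟩
  · exact norm_gX hq j
  · rw [norm_neg]; exact norm_gX hq j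

lemma DD_symm : ∀ g ∈ DD q, -g ∈ DD q := by
  rintro g ⟨j, rfl | rfl⟩
  · exact ⟨j, Or.inr rfl⟩
  · exact ⟨j, Or.inl (neg_neg _)⟩

lemma DP_norm (hq : 4 ≤ q) : ∀ g ∈ DP Y q, ‖g‖ = 1 := by
  rintro z (⟨g, hg, rfl⟩ | ⟨y, hy, rfl⟩)
  · rw [norm_i1]; exact DD_norm hq g hg
  · rw [norm_i2]; exact hy

lemma DP_dict (hq : 4 ≤ q) : IsDictionary (DP Y q) := by
  refine ⟨fun g hg => (DP_norm Y hq g hg).le, ?_, ?_⟩
  · rintro z (⟨g, hg, rfl⟩ | ⟨y, hy, rfl⟩)
    · exact Or.inl ⟨-g, DD_symm g hg, (map_neg _ _).symm⟩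
    · exact Or.inr ⟨-y, by rw [norm_neg]; exact hy, (map_neg _ _).symm⟩
  · rw [Metric.dense_iff]
    intro z ε hε
    obtain ⟨s, hs1, hs2⟩ := Metric.dense_iff.1 (dense_span hq) z.fst ε hε
    refine ⟨i1 Y q s + i2 Y q z.snd, ?_, ?_⟩
    · rw [Metric.mem_ball, dist_eq_norm]
      have e : i1 Y q s + i2 Y q z.snd - z = i1 Y q (s - z.fst) := by
        have e1 : z = i1 Y q z.fst + i2 Y q z.snd := by
          apply (WithLp.equiv 2 _).injective
          apply Prod.ext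
          · show z.fst = z.fst + 0
            rw [add_zero]
          · show z.snd = 0 + z.snd
            rw [zero_add]
        rw [map_sub]
        nth_rewrite 2 [e1]
        abel
      rw [e, norm_i1, ← dist_eq_norm]
      exact hs1
    · apply Submodule.add_mem
      · have h1 : s ∈ Submodule.span ℝ (DD q) := hs2
        have h2 : i1 Y q s ∈ (Submodule.span ℝ (DD q)).map (i1 Y q) := ⟨s, h1, rfl⟩
        rw [Submodule.map_span] at h2
        refine Submodule.span_mono ?_ h2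
        rintro _ ⟨g, hg, rfl⟩
        exact Or.inl ⟨g, hg, rfl⟩
      · rcases eq_or_ne z.snd 0 with h0 | h0
        · rw [h0, map_zero]; exact Submodule.zero_mem _
        · have hpos : 0 < ‖z.snd‖ := norm_pos_iff.2 h0
          have h1 : i2 Y q z.snd = ‖z.snd‖ • i2 Y q (‖z.snd‖⁻¹ • z.snd) := by
            rw [← map_smul, smul_smul, mul_inv_cancel₀ hpos.ne', one_smul]
          rw [h1]
          apply Submodule.smul_mem
          apply Submodule.subset_span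
          refine Or.inr ⟨_, ?_, rfl⟩
          rw [norm_smul, norm_inv, norm_norm, inv_mul_cancel₀ hpos.ne']

/-- The functionals. -/
noncomputable def FP (q : ℕ) (hq : 4 ≤ q) (m : ℕ) : PX q Y →L[ℝ] ℝ :=
  (FX q hq m).comp (WithLp.fstL 2 ℝ (XX q) Y)

lemma FP_apply (hq : 4 ≤ q) (m : ℕ) (z : PX q Y) : FP Y q hq m z = FX q hq m z.fst := rfl

lemma norm_FP (hq : 4 ≤ q) (m : ℕ) : ‖FP Y q hq m‖ = 1 := by
  apply le_antisymm
  · apply ContinuousLinearMap.opNorm_le_bound _ zero_le_one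
    intro z
    rw [FP_apply]
    refine ((FX q hq m).le_opNorm _).trans ?_
    rw [norm_FX hq]
    exact mul_le_mul_of_nonneg_left (norm_fst_le Y z) zero_le_one
  · have h := (FP Y q hq m).le_opNorm (i1 Y q (fX q m))
    rw [FP_apply, i1_fst, FX_fX, norm_i1, norm_fX hq, Real.norm_eq_abs,
      abs_of_pos (lam_pos hq m)] at h
    have h2 := lam_pos hq m
    by_contra hc
    push Not at hc
    nlinarith

theorem fails_PX (hq : 4 ≤ q) {ε : ℝ} (hε : cc q / 20 ≤ ε) : Fails ε (PX q Y) := by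
  have hlow : ∀ m, 1 - ε ≤ ‖fX q m‖ := fun m => by
    rw [norm_fX hq]
    have := lam_ge' hq m
    linarith
  have hlow' : ∀ m, (1 : ℝ) / 2 ≤ ‖fX q m‖ := fun m => by
    rw [norm_fX hq]
    have := lam_ge hq m
    linarith
  have hmax : ∀ m, ∀ g ∈ DD q, FX q hq m g ≤ FX q hq m (gX q m) := by
    rintro m g ⟨j, rfl | rfl⟩
    · exact (le_abs_self _).trans (FX_le hq j m)
    · rw [map_neg]; exact (neg_le_abs _).trans (FX_le hq j m)
  have hnn : ∀ m, 0 ≤ FX q hq m (gX q m) := fun m => (abs_nonneg _).trans (FX_le hq m m)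
  have hmaxP : ∀ m, ∀ g ∈ DP Y q, FP Y q hq m g ≤ FP Y q hq m (i1 Y q (gX q m)) := by
    intro m g hg
    rw [FP_apply, FP_apply, i1_fst]
    rcases hg with ⟨g, hg, rfl⟩ | ⟨y, hy, rfl⟩
    · rw [i1_fst]; exact hmax m g hg
    · rw [i2_fst, map_zero]; exact hnn m
  have hmem : ∀ m, i1 Y q (gX q m) ∈ DP Y q := fun m => Or.inl ⟨_, gX_mem q m, rfl⟩
  have hrun : ∀ t : ℝ, 0 < t → t ≤ 1 →
      IsRun t (DP Y q) (i1 Y q (fX q 0)) (fun m => i1 Y q (fX q m)) := by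
    intro t ht0 ht1
    refine ⟨rfl, fun m => ⟨fun h0 => ?_, fun _ => ⟨FP Y q hq m, i1 Y q (gX q m), aa q m,
      ⟨norm_FP Y hq m, ?_⟩, hmem m, ?_, fun b => ?_, ?_⟩⟩⟩
    · have h1 := hlow' m
      have h0' : i1 Y q (fX q m) = 0 := h0
      rw [← norm_i1 Y, h0', norm_zero] at h1
      norm_num at h1
    · rw [FP_apply, i1_fst, FX_fX, norm_i1, norm_fX hq]
    · have h1 : dictNorm (DP Y q) (FP Y q hq m) ≤ FP Y q hq m (i1 Y q (gX q m)) := by
        apply csSup_le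
        · exact ⟨_, i1 Y q (gX q m), hmem m, rfl⟩
        · rintro v ⟨g, hg, rfl⟩
          exact hmaxP m g hg
      have h2 : 0 ≤ dictNorm (DP Y q) (FP Y q hq m) := by
        have h3 : 0 ≤ FP Y q hq m (i1 Y q (gX q m)) := hnn m
        apply h3.trans
        apply le_csSup
        · refine ⟨FP Y q hq m (i1 Y q (gX q m)), ?_⟩
          rintro v ⟨g, hg, rfl⟩
          exact hmaxP m g hg
        · exact ⟨i1 Y q (gX q m), hmem m, rfl⟩
      calc t * dictNorm (DP Y q) (FP Y q hq m) ≤ 1 * dictNorm (DP Y q) (FP Y q hq m) :=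
            mul_le_mul_of_nonneg_right ht1 h2
        _ = dictNorm (DP Y q) (FP Y q hq m) := one_mul _
        _ ≤ _ := h1
    · rw [← map_smul, ← map_smul, ← map_sub, ← map_sub, norm_i1, norm_i1]
      exact line_opt hq m b
    · show i1 Y q (fX q (m + 1)) = _
      rw [fX_succ hq m, map_sub, map_smul]
  refine ⟨DP Y q, DP_dict Y hq, DP_norm Y hq, i1 Y q (fX q 0), fun m => i1 Y q (fX q m), ?_,
    fun m => by rw [norm_i1]; exact hlow m, fun t ht0 ht1 => ⟨hrun t ht0 ht1, ?_⟩⟩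
  · rw [norm_i1, norm_fX hq]; rfl
  · intro hconv
    have h1 := hconv _ (hrun t ht0 ht1)
    have h2 : (1 : ℝ) / 2 ≤ 0 := ge_of_tendsto' h1 (fun m => by
      rw [norm_i1]; exact hlow' m)
    norm_num at h2

end sums

end Pool.Agent.KS6_82.WD
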