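import Pool.Agent.KS6_82.WD.C

set_option autoImplicit false

/-! # Renormings of Hilbert spaces, and finite-dimensional spaces -/

open Filter Topology
open scoped InnerProductSpace

universe u

namespace Pool.Agent.KS6_82.WD

open Pool.Agent.Y648.GR
open Pool.Agent.Helper415.DGA (E)

section hilbert

variable (H : Type u) [NormedAddCommGroup H] [InnerProductSpace ℝ H]

lemma sqSmooth_hilbert {κ : ℝ} (hκ : 1 ≤ κ) : SqSmooth κ H := by
  intro x y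
  have h := parallelogram_law_with_norm ℝ x y
  nlinarith [sq_nonneg ‖y‖]

variable [CompleteSpace H]

/-- an infinite-dimensional Hilbert space contains a copy of `ℓ₂` -/
lemma exists_embed (hH : ¬ FiniteDimensional ℝ H) : Nonempty (E →ₗᵢ[ℝ] H) := by
  obtain ⟨w, b, hb⟩ := exists_hilbertBasis ℝ H
  have hinf : Infinite w := by
    by_contra hfin
    rw [not_infinite_iff_finite] at hfin
    have := Fintype.ofFinite w
    exact hH (Module.Basis.finiteDimensional_of_finite (b.toOrthonormalBasis.toBasis))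
  let f : ℕ ⊕ ℕ ↪ w := (Equiv.natSumNatEquivNat.toEmbedding).trans (Infinite.natEmbedding w)
  have ho : Orthonormal ℝ (fun i => b (f i)) := b.orthonormal.comp f f.injective
  exact ⟨ho.orthogonalFamily.linearIsometry⟩

/-- splitting off the library's Hilbert space -/
lemma exists_split (hH : ¬ FiniteDimensional ℝ H) (q : ℕ) :
    ∃ K : Submodule ℝ H, CompleteSpace ↥Kᗮ ∧ Nonempty (H ≃ₗᵢ[ℝ] WithLp 2 (↥(HH q) × ↥Kᗮ)) := by
  obtain ⟨j⟩ := exists_embed H hH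
  set e : ↥(HH q) →ₗᵢ[ℝ] H := j.comp (HH q).subtypeₗᵢ with he
  have hcomp : CompleteSpace ↥e.range := by
    have := e.isometry.isUniformInducing.isComplete_range
    exact (this).completeSpace_coe
  have : (e.range).HasOrthogonalProjection := Submodule.HasOrthogonalProjection.ofCompleteSpace _
  refine ⟨e.range, inferInstance, ⟨?_⟩⟩
  exact (e.range).orthogonalDecomposition.trans
    (LinearIsometryEquiv.withLpProdCongr 2 e.equivRange.symm (LinearIsometryEquiv.refl ℝ _))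

end hilbert

/-- the change of norm -/
noncomputable def TP (q : ℕ) (Y : Type u) [NormedAddCommGroup Y] [NormedSpace ℝ Y] :
    WithLp 2 (↥(HH q) × Y) ≃ₗ[ℝ] PX q Y :=
  (WithLp.linearEquiv 2 ℝ (↥(HH q) × Y)).trans
    (((TT q).prodCongr (LinearEquiv.refl ℝ Y)).trans (WithLp.linearEquiv 2 ℝ (XX q × Y)).symm)

lemma TP_fst (q : ℕ) (Y : Type u) [NormedAddCommGroup Y] [NormedSpace ℝ Y]
    (z : WithLp 2 (↥(HH q) × Y)) : (TP q Y z).fst = TT q z.fst := rfl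

lemma TP_snd (q : ℕ) (Y : Type u) [NormedAddCommGroup Y] [NormedSpace ℝ Y]
    (z : WithLp 2 (↥(HH q) × Y)) : (TP q Y z).snd = z.snd := rfl

lemma norm_TP_le (q : ℕ) (Y : Type u) [NormedAddCommGroup Y] [NormedSpace ℝ Y]
    (z : WithLp 2 (↥(HH q) × Y)) : ‖TP q Y z‖ ≤ ‖z‖ := by
  apply le_of_sq_le_sq _ (norm_nonneg _)
  rw [norm_sq_PX, WithLp.prod_norm_sq_eq_of_L2, TP_fst, TP_snd]
  have := pow_le_pow_left₀ (norm_nonneg _) (norm_TT_le q z.fst) 2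
  linarith

lemma norm_TP_ge (q : ℕ) (Y : Type u) [NormedAddCommGroup Y] [NormedSpace ℝ Y]
    (z : WithLp 2 (↥(HH q) × Y)) : ‖z‖ ≤ (1 + cc q) * ‖TP q Y z‖ := by
  have hc := cc_nonneg q
  apply le_of_sq_le_sq _ (by positivity)
  rw [mul_pow, norm_sq_PX, WithLp.prod_norm_sq_eq_of_L2, TP_fst, TP_snd]
  have h1 := pow_le_pow_left₀ (norm_nonneg _) (norm_TT_ge q z.fst) 2
  rw [mul_pow] at h1
  have h2 : 1 * ‖z.snd‖ ^ 2 ≤ (1 + cc q) ^ 2 * ‖z.snd‖ ^ 2 := by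
    apply mul_le_mul_of_nonneg_right _ (sq_nonneg _)
    nlinarith
  nlinarith

/-- **Renormings of Hilbert spaces.** -/
theorem hilbert_fails (H : Type u) [NormedAddCommGroup H] [InnerProductSpace ℝ H]
    [CompleteSpace H] (hH : ¬ FiniteDimensional ℝ H) (ε : ℝ) (hε : 0 < ε) :
    ∃ (X : Type u) (_ : NormedAddCommGroup X) (_ : NormedSpace ℝ X) (T : H ≃ₗ[ℝ] X),
      (∀ x, (1 - ε) * ‖x‖ ≤ ‖T x‖ ∧ ‖T x‖ ≤ ‖x‖) ∧ CompleteSpace X ∧
      (∀ u : ℝ, 0 < u → modulus X u ≤ Real.sqrt (1 + (1 + ε) * u ^ 2) - 1) ∧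
      PowerType X 2 ∧ UniformlySmooth X ∧ Fails ε X := by
  obtain ⟨n, hn⟩ := exists_nat_gt (9 / ε)
  obtain ⟨q, hq, hqn⟩ : ∃ q : ℕ, 4 ≤ q ∧ n ≤ q := ⟨max 4 n, le_max_left _ _, le_max_right _ _⟩
  have hc := cc_pos hq
  have hqε : 9 * cc q ≤ ε := by
    have h1 : (n : ℝ) ≤ q := by exact_mod_cast hqn
    have h2 : 9 / ε < q := lt_of_lt_of_le hn h1
    have h3 : (0 : ℝ) < q := lt_trans (by positivity) h2
    rw [div_lt_iff₀ hε] at h2
    unfold cc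
    rw [mul_one_div, div_le_iff₀ h3]
    linarith
  have hk1 := kq_ge hq
  have hk2 := kq_le hq
  obtain ⟨K, hK, ⟨e⟩⟩ := exists_split H hH q
  have hsq : SqSmooth (kq q) (PX q ↥Kᗮ) :=
    sqSmooth_PX ↥Kᗮ hq le_rfl (sqSmooth_hilbert ↥Kᗮ hk1)
  have hpt := hsq.powerType hk1
  refine ⟨PX q ↥Kᗮ, inferInstance, inferInstance, e.toLinearEquiv.trans (TP q ↥Kᗮ), fun x => ?_,
    inferInstance, fun u hu => ?_, hpt, hpt.uniformlySmooth, fails_PX ↥Kᗮ hq (by linarith)⟩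
  · have h1 : ‖e x‖ = ‖x‖ := e.norm_map x
    have h2 := norm_TP_le q ↥Kᗮ (e x)
    have h3 := norm_TP_ge q ↥Kᗮ (e x)
    rw [h1] at h2 h3
    refine ⟨?_, h2⟩
    show (1 - ε) * ‖x‖ ≤ ‖TP q ↥Kᗮ (e x)‖
    have h4 := norm_nonneg x
    have h5 := norm_nonneg (TP q ↥Kᗮ (e x))
    nlinarith
  · refine (hsq.modulus_le hk1 hu).trans ?_
    have h2 : kq q * u ^ 2 ≤ (1 + ε) * u ^ 2 :=
      mul_le_mul_of_nonneg_right (by linarith) (sq_nonneg u)
    have h3 : Real.sqrt (1 + kq q * u ^ 2) ≤ Real.sqrt (1 + (1 + ε) * u ^ 2) :=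
      Real.sqrt_le_sqrt (by linarith)
    linarith

/-- **Sums with spaces of power type two.** -/
theorem sum_fails (Y : Type u) [NormedAddCommGroup Y] [NormedSpace ℝ Y] [CompleteSpace Y]
    (hY : PowerType Y 2) (ε : ℝ) (hε : 0 < ε) :
    ∃ (X : Type u) (_ : NormedAddCommGroup X) (_ : NormedSpace ℝ X) (J : Y →ₗᵢ[ℝ] X)
      (P : X →L[ℝ] Y), (∀ y, P (J y) = y) ∧ (∀ x, ‖P x‖ ≤ ‖x‖) ∧
      (∀ x, ‖x‖ ^ 2 = ‖P x‖ ^ 2 + ‖x - J (P x)‖ ^ 2) ∧
      (∀ u : ℝ, 0 < u → ∀ x y : X, P x = 0 → P y = 0 → ‖x‖ = 1 → ‖y‖ = 1 →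
        (‖x + u • y‖ + ‖x - u • y‖) / 2 - 1 ≤ Real.sqrt (1 + (1 + ε) * u ^ 2) - 1) ∧
      CompleteSpace X ∧ PowerType X 2 ∧ UniformlySmooth X ∧ Fails ε X := by
  obtain ⟨n, hn⟩ := exists_nat_gt (9 / ε)
  obtain ⟨q, hq, hqn⟩ : ∃ q : ℕ, 4 ≤ q ∧ n ≤ q := ⟨max 4 n, le_max_left _ _, le_max_right _ _⟩
  have hc := cc_pos hq
  have hqε : 9 * cc q ≤ ε := by
    have h1 : (n : ℝ) ≤ q := by exact_mod_cast hqn
    have h2 : 9 / ε < q := lt_of_lt_of_le hn h1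
    have h3 : (0 : ℝ) < q := lt_trans (by positivity) h2
    rw [div_lt_iff₀ hε] at h2
    unfold cc
    rw [mul_one_div, div_le_iff₀ h3]
    linarith
  have hk1 := kq_ge hq
  have hk2 := kq_le hq
  obtain ⟨κ, hκ1, hκ⟩ := hY.sqSmooth
  have hsq : SqSmooth (max κ (kq q)) (PX q Y) :=
    sqSmooth_PX Y hq (le_max_right _ _) (fun x y => (hκ x y).trans (by
      have := mul_le_mul_of_nonneg_right (le_max_left κ (kq q)) (sq_nonneg ‖y‖)
      linarith))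
  have hpt := hsq.powerType (hκ1.trans (le_max_left _ _))
  have hdec : ∀ x : PX q Y, x - i2 Y q x.snd = i1 Y q x.fst := by
    intro x
    apply (WithLp.equiv 2 _).injective
    apply Prod.ext
    · show x.fst - 0 = x.fst
      rw [sub_zero]
    · show x.snd - x.snd = 0
      rw [sub_self]
  refine ⟨PX q Y, inferInstance, inferInstance, ⟨i2 Y q, norm_i2 Y⟩, WithLp.sndL 2 ℝ (XX q) Y,
    fun y => rfl, norm_snd_le Y, fun x => ?_, fun u hu x y hx hy hx1 hy1 => ?_, inferInstance,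
    hpt, hpt.uniformlySmooth, fails_PX Y hq (by linarith)⟩
  · show ‖x‖ ^ 2 = ‖x.snd‖ ^ 2 + ‖x - i2 Y q x.snd‖ ^ 2
    rw [hdec, norm_i1, norm_sq_PX]; ring
  · have hx' : x = i1 Y q x.fst := by
      have h0 : x.snd = 0 := hx
      rw [← hdec x, h0, map_zero, sub_zero]
    have hy' : y = i1 Y q y.fst := by
      have h0 : y.snd = 0 := hy
      rw [← hdec y, h0, map_zero, sub_zero]
    have hx1' : ‖x.fst‖ = 1 := by rw [← norm_i1 Y, ← hx', hx1]
    have hy1' : ‖y.fst‖ = 1 := by rw [← norm_i1 Y, ← hy', hy1]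
    have hsqX : SqSmooth (kq q) (XX q) := sq_smoothX hq
    have h1 := (le_modulus hu hx1' hy1').trans (hsqX.modulus_le hk1 hu)
    have e1 : ‖x + u • y‖ = ‖x.fst + u • y.fst‖ := by
      nth_rewrite 1 [hx', hy']
      rw [← map_smul, ← map_add, norm_i1]
    have e2 : ‖x - u • y‖ = ‖x.fst - u • y.fst‖ := by
      nth_rewrite 1 [hx', hy']
      rw [← map_smul, ← map_sub, norm_i1]
    rw [e1, e2]
    refine h1.trans ?_
    have h2 : kq q * u ^ 2 ≤ (1 + ε) * u ^ 2 :=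
      mul_le_mul_of_nonneg_right (by linarith) (sq_nonneg u)
    have h3 : Real.sqrt (1 + kq q * u ^ 2) ≤ Real.sqrt (1 + (1 + ε) * u ^ 2) :=
      Real.sqrt_le_sqrt (by linarith)
    linarith

end Pool.Agent.KS6_82.WD
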