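import Pool.Agent.KS6_82.WD.D

set_option autoImplicit false

/-! # Finite-dimensional spaces -/

open Filter Topology

universe u

namespace Pool.Agent.KS6_82.WD

variable {X : Type u} [NormedAddCommGroup X] [NormedSpace ℝ X]

lemma dict_bdd {D : Set X} (hD : IsDictionary D) (F : X →L[ℝ] ℝ) : BddAbove (F '' D) := by
  refine ⟨‖F‖, ?_⟩
  rintro v ⟨g, hg, rfl⟩
  refine (le_abs_self _).trans ((F.le_opNorm g).trans ?_)
  exact mul_le_of_le_one_right (norm_nonneg _) (hD.norm_le g hg)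

lemma abs_le_dictNorm {D : Set X} (hD : IsDictionary D) (F : X →L[ℝ] ℝ) {g : X} (hg : g ∈ D) :
    |F g| ≤ dictNorm D F := by
  rw [abs_le]
  constructor
  · have h := le_csSup (dict_bdd hD F) ⟨-g, hD.symm g hg, rfl⟩
    rw [map_neg] at h
    unfold dictNorm
    linarith
  · exact le_csSup (dict_bdd hD F) ⟨g, hg, rfl⟩

/-- in finite dimensions `‖·‖_D` is equivalent to the dual norm -/
lemma exists_lower [FiniteDimensional ℝ X] {D : Set X} (hD : IsDictionary D) :
    ∃ s : ℝ, 0 < s ∧ ∀ F : X →L[ℝ] ℝ, s * ‖F‖ ≤ dictNorm D F := by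
  have htop : Submodule.span ℝ D = ⊤ := by
    rw [eq_top_iff]
    intro x _
    have h1 : IsClosed ((Submodule.span ℝ D : Submodule ℝ X) : Set X) :=
      Submodule.closed_of_finiteDimensional _
    have h2 := hD.dense_span x
    rwa [h1.closure_eq] at h2
  have hfg : (Submodule.span ℝ D).FG := by rw [htop]; exact Module.Finite.fg_top
  obtain ⟨t, ht, ht2⟩ := Submodule.fg_span_iff_fg_span_finset_subset D |>.1 hfg
  rw [htop] at ht2
  let L : (X →L[ℝ] ℝ) →ₗ[ℝ] (t → ℝ) :=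
    { toFun := fun F g => F g
      map_add' := fun F G => rfl
      map_smul' := fun a F => rfl }
  have hker : LinearMap.ker L = ⊥ := by
    rw [LinearMap.ker_eq_bot']
    intro F hF
    ext x
    have hx : x ∈ Submodule.span ℝ (t : Set X) := by rw [← ht2]; trivial
    have h3 : Submodule.span ℝ (t : Set X) ≤ LinearMap.ker (F : X →ₗ[ℝ] ℝ) := by
      rw [Submodule.span_le]
      intro g hg
      exact congrFun hF ⟨g, hg⟩
    exact h3 hx
  obtain ⟨K, hK, hanti⟩ := LinearMap.exists_antilipschitzWith L hker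
  refine ⟨(K : ℝ)⁻¹, by positivity, fun F => ?_⟩
  have hKpos : (0 : ℝ) < K := by exact_mod_cast hK
  have h1 : ‖F‖ ≤ K * ‖L F‖ := by
    have := hanti.le_mul_dist F 0
    simpa [dist_eq_norm] using this
  have hnn : 0 ≤ dictNorm D F := by
    rcases D.eq_empty_or_nonempty with he | ⟨g, hg⟩
    · unfold dictNorm; rw [he]; simp
    · exact (abs_nonneg _).trans (abs_le_dictNorm hD F hg)
  have h2 : ‖L F‖ ≤ dictNorm D F := by
    rw [pi_norm_le_iff_of_nonneg hnn]
    intro g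
    exact abs_le_dictNorm hD F (ht g.2)
  rw [inv_mul_le_iff₀ hKpos]
  exact h1.trans (mul_le_mul_of_nonneg_left h2 hKpos.le)

/-- one step decreases the norm of a large residual by a fixed amount -/
lemma step_gain {D : Set X} (hD : IsDictionary D) {s t δ c : ℝ} (hδ : 0 < δ) (hc : 0 < c)
    (hs : 0 < s) (ht : 0 < t) (hlow : ∀ F : X →L[ℝ] ℝ, s * ‖F‖ ≤ dictNorm D F)
    (hsm : modulus X δ ≤ t * s / 4 * δ) {f f' : X} (hf : c ≤ ‖f‖) (hst : Step t D f f') :
    ‖f'‖ ≤ ‖f‖ - δ * c * (t * s) / 2 := by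
  obtain ⟨F, φ, a, ⟨hF1, hF2⟩, hφ, htF, hopt, rfl⟩ := hst
  have hfpos : 0 < ‖f‖ := hc.trans_le hf
  have hf0 : f ≠ 0 := norm_pos_iff.1 hfpos
  have hFφ : t * s ≤ F φ := by
    have h := hlow F
    rw [hF1, mul_one] at h
    exact (mul_le_mul_of_nonneg_left h ht.le).trans htF
  have hFpos : 0 < F φ := lt_of_lt_of_le (by positivity) hFφ
  have hφ0 : φ ≠ 0 := by
    rintro rfl
    rw [map_zero] at hFpos
    exact lt_irrefl _ hFpos
  have hφpos : 0 < ‖φ‖ := norm_pos_iff.2 hφ0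
  have hφ1 := hD.norm_le φ hφ
  set b := δ * ‖f‖ / ‖φ‖ with hb
  have hbpos : 0 < b := by positivity
  have hb1 : δ * c ≤ b := by
    rw [hb, le_div_iff₀ hφpos]
    have : δ * c * ‖φ‖ ≤ δ * c * 1 := mul_le_mul_of_nonneg_left hφ1 (by positivity)
    have h2 : δ * c ≤ δ * ‖f‖ := mul_le_mul_of_nonneg_left hf hδ.le
    linarith
  have hbφ : b * ‖φ‖ = δ * ‖f‖ := by rw [hb]; field_simp
  have hnb : ‖b • φ‖ = δ * ‖f‖ := by
    rw [norm_smul, Real.norm_eq_abs, abs_of_pos hbpos, hbφ]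
  have h1 := sum_le_modulus (X := X) hf0 (y := b • φ) (by
    rw [Ne, smul_eq_zero, not_or]; exact ⟨hbpos.ne', hφ0⟩)
  have hrat : ‖b • φ‖ / ‖f‖ = δ := by rw [hnb]; field_simp
  rw [hrat] at h1
  have h2 : ‖f‖ + b * F φ ≤ ‖f + b • φ‖ := by
    have h3 : F (f + b • φ) = ‖f‖ + b * F φ := by rw [map_add, map_smul, hF2, smul_eq_mul]
    rw [← h3]
    refine (le_abs_self _).trans ((F.le_opNorm _).trans ?_)
    rw [hF1, one_mul]
  have h4 : ‖f‖ * modulus X δ ≤ ‖f‖ * (t * s / 4 * δ) := mul_le_mul_of_nonneg_left hsm hfpos.le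
  have h5 : ‖f‖ * (t * s / 4 * δ) ≤ t * s / 4 * b := by
    have : ‖f‖ * (t * s / 4 * δ) = t * s / 4 * (b * ‖φ‖) := by rw [hbφ]; ring
    rw [this]
    apply mul_le_mul_of_nonneg_left _ (by positivity)
    exact mul_le_of_le_one_right hbpos.le hφ1
  have h6 : b * (t * s) ≤ b * F φ := mul_le_mul_of_nonneg_left hFφ hbpos.le
  have h7 : δ * c * (t * s) ≤ b * (t * s) := mul_le_mul_of_nonneg_right hb1 (by positivity)
  have h8 := hopt b
  linarith

/-- **The WDGA converges in finite-dimensional uniformly smooth spaces.** -/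
theorem finite_converges [FiniteDimensional ℝ X] (hX : UniformlySmooth X) (t : ℝ) (ht : 0 < t)
    (D : Set X) (hD : IsDictionary D) (f : X) : ConvergesFor t D f := by
  intro r hr
  obtain ⟨s, hs, hlow⟩ := exists_lower hD
  -- the norms decrease
  have hanti : Antitone (fun m => ‖r m‖) := by
    apply antitone_nat_of_succ_le
    intro m
    by_cases h0 : r m = 0
    · rw [(hr.2 m).1 h0, h0]
    · obtain ⟨F, φ, a, -, -, -, hopt, he⟩ := (hr.2 m).2 h0
      have := hopt 0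
      rw [zero_smul, sub_zero, ← he] at this
      exact this
  have hbdd : BddBelow (Set.range fun m => ‖r m‖) := ⟨0, by rintro _ ⟨m, rfl⟩; exact norm_nonneg _⟩
  have hlim := tendsto_atTop_ciInf hanti hbdd
  set c := ⨅ m, ‖r m‖ with hc
  have hc0 : 0 ≤ c := le_ciInf fun m => norm_nonneg _
  rcases eq_or_lt_of_le hc0 with h | h
  · rw [← h] at hlim; exact hlim
  exfalso
  have hge : ∀ m, c ≤ ‖r m‖ := fun m => ciInf_le hbdd m
  -- choose `δ`
  have hev : ∀ᶠ u in 𝓝[>] (0:ℝ), modulus X u / u < t * s / 4 :=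
    hX.eventually (gt_mem_nhds (by positivity))
  obtain ⟨δ, hδ1, hδ2⟩ := (hev.and self_mem_nhdsWithin).exists
  have hδ : 0 < δ := hδ2
  have hsm : modulus X δ ≤ t * s / 4 * δ := by
    rw [div_lt_iff₀ hδ] at hδ1; exact hδ1.le
  have hstep : ∀ m, ‖r (m + 1)‖ ≤ ‖r m‖ - δ * c * (t * s) / 2 := by
    intro m
    have h0 : r m ≠ 0 := norm_pos_iff.1 (h.trans_le (hge m))
    exact step_gain hD hδ h hs ht hlow hsm (hge m) ((hr.2 m).2 h0)
  have hall : ∀ m : ℕ, ‖r m‖ ≤ ‖r 0‖ - m * (δ * c * (t * s) / 2) := by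
    intro m
    induction m with
    | zero => simp
    | succ m ih =>
      have := hstep m
      push_cast
      linarith
  obtain ⟨m, hm⟩ := exists_nat_gt (‖r 0‖ / (δ * c * (t * s) / 2))
  have hpos : 0 < δ * c * (t * s) / 2 := by positivity
  rw [div_lt_iff₀ hpos] at hm
  have h1 := hall m
  have h2 := norm_nonneg (r m)
  linarith

end Pool.Agent.KS6_82.WD
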