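import Pool.Agent.KS6_82.WD.F

set_option autoImplicit false

/-! # Sums with spaces of power type `p` -/

open Filter Topology

universe u

namespace Pool.Agent.KS6_82.WD

open Pool.Agent.Y648.GR

lemma PowerType.uniformlySmooth' {X : Type u} [NormedAddCommGroup X] [NormedSpace ℝ X] {p : ℝ}
    (hp : 1 < p) (h : PowerType X p) : UniformlySmooth X := by
  obtain ⟨γ, hγ, h⟩ := h
  have h1 : Tendsto (fun u : ℝ => γ * u ^ (p - 1)) (𝓝[>] 0) (𝓝 0) := by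
    have h2 : Tendsto (fun u : ℝ => γ * u ^ (p - 1)) (𝓝 0) (𝓝 (γ * 0 ^ (p - 1))) :=
      ((Real.continuousAt_rpow_const 0 (p - 1) (Or.inr (by linarith))).tendsto).const_mul γ
    rw [Real.zero_rpow (by linarith), mul_zero] at h2
    exact h2.mono_left nhdsWithin_le_nhds
  apply squeeze_zero' _ _ h1
  · filter_upwards [self_mem_nhdsWithin] with u hu
    exact div_nonneg (modulus_nonneg u) (le_of_lt hu)
  · filter_upwards [self_mem_nhdsWithin] with u hu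
    have hu' : (0:ℝ) < u := hu
    rw [div_le_iff₀ hu', mul_assoc, ← Real.rpow_add_one hu'.ne', sub_add_cancel]
    exact h u hu'

lemma modulus_le_self {X : Type u} [NormedAddCommGroup X] [NormedSpace ℝ X] {u : ℝ} (hu : 0 < u) :
    modulus X u ≤ u := by
  apply Real.sSup_le _ hu.le
  rintro v ⟨x, y, hx, hy, rfl⟩
  have h1 := norm_add_le x (u • y)
  have h2 := norm_sub_le x (u • y)
  rw [norm_smul, hx, hy, Real.norm_eq_abs, abs_of_pos hu] at h1 h2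
  linarith

/-- the square-sum estimate in a space of power type `p` -/
lemma sq_power {Y : Type u} [NormedAddCommGroup Y] [NormedSpace ℝ Y] {p γ : ℝ} (hp1 : 1 < p)
    (hp2 : p ≤ 2) (hγ : 0 < γ) (h : ∀ u : ℝ, 0 < u → modulus Y u ≤ γ * u ^ p) (y k : Y) (u : ℝ)
    (hu0 : 0 < u) (hu1 : u ≤ 1) (hy : ‖y‖ ≤ 1) (hk : ‖k‖ ≤ 1) :
    ‖y + u • k‖ ^ 2 + ‖y - u • k‖ ^ 2 ≤ 2 * ‖y‖ ^ 2 + (6 * γ + 10) * u ^ p := by
  have hup : u ^ 2 ≤ u ^ p := by
    rw [← Real.rpow_two]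
    exact Real.rpow_le_rpow_of_exponent_ge hu0 hu1 hp2
  have hup0 : 0 < u ^ p := Real.rpow_pos_of_pos hu0 p
  have hnk : ‖u • k‖ = u * ‖k‖ := by rw [norm_smul, Real.norm_eq_abs, abs_of_pos hu0]
  have hk2 : (u * ‖k‖) ^ 2 ≤ u ^ p := by
    refine le_trans ?_ hup
    exact pow_le_pow_left₀ (by positivity) (mul_le_of_le_one_right hu0.le hk) 2
  rcases eq_or_ne k 0 with rfl | hk0
  · simp only [smul_zero, add_zero, sub_zero]
    nlinarith
  rcases eq_or_ne y 0 with rfl | hy0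
  · simp only [zero_add, zero_sub, norm_neg, norm_zero, hnk]
    nlinarith
  have hyp : 0 < ‖y‖ := norm_pos_iff.2 hy0
  have hkp : 0 < ‖k‖ := norm_pos_iff.2 hk0
  have hs := sum_le_modulus hy0 (y := u • k) (by
    rw [Ne, smul_eq_zero, not_or]; exact ⟨hu0.ne', hk0⟩)
  rw [hnk] at hs
  set v := u * ‖k‖ / ‖y‖ with hv
  have hvpos : 0 < v := by positivity
  have hvy : v * ‖y‖ = u * ‖k‖ := by rw [hv]; field_simp
  have h3 : |‖y + u • k‖ - ‖y - u • k‖| ≤ 2 * (u * ‖k‖) := by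
    refine (abs_norm_sub_norm_le _ _).trans ?_
    have : y + u • k - (y - u • k) = (2:ℝ) • (u • k) := by rw [two_smul]; abel
    rw [this, norm_smul, Real.norm_eq_abs, abs_two, hnk]
  have h3' : (‖y + u • k‖ - ‖y - u • k‖) ^ 2 ≤ 4 * (u * ‖k‖) ^ 2 := by
    have := pow_le_pow_left₀ (abs_nonneg _) h3 2
    rw [sq_abs] at this
    linarith
  have hm0 := modulus_nonneg (X := Y) v
  have hm1 := modulus_le_self (X := Y) hvpos
  have hm2 := h v hvpos
  set M := modulus Y v with hM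
  set A := ‖y + u • k‖
  set B := ‖y - u • k‖
  have hA0 : 0 ≤ A := norm_nonneg _
  have hB0 : 0 ≤ B := norm_nonneg _
  have h4 : (A + B) ^ 2 ≤ 4 * (‖y‖ * (1 + M)) ^ 2 := by
    have := pow_le_pow_left₀ (by positivity) hs 2
    linarith
  -- the main estimate
  have h5 : (‖y‖ * (1 + M)) ^ 2 ≤ ‖y‖ ^ 2 + (3 * γ + 4) * u ^ p := by
    rcases le_total v 1 with hv1 | hv1
    · have hM3 : ‖y‖ ^ 2 * M ≤ γ * u ^ p := by
        have e1 : ‖y‖ ^ 2 * (γ * v ^ p) = γ * (‖y‖ ^ (2 - p) * (v * ‖y‖) ^ p) := by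
          rw [Real.mul_rpow hvpos.le hyp.le]
          have e2 : ‖y‖ ^ (2 - p) * (v ^ p * ‖y‖ ^ p) = v ^ p * (‖y‖ ^ (2 - p) * ‖y‖ ^ p) := by
            ring
          rw [e2, ← Real.rpow_add hyp, sub_add_cancel, Real.rpow_two]
          ring
        have e3 : ‖y‖ ^ (2 - p) ≤ 1 := Real.rpow_le_one hyp.le hy (by linarith)
        have e4 : (v * ‖y‖) ^ p ≤ u ^ p := by
          rw [hvy]
          exact Real.rpow_le_rpow (by positivity) (mul_le_of_le_one_right hu0.le hk) (by linarith)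
        have e5 : ‖y‖ ^ (2 - p) * (v * ‖y‖) ^ p ≤ 1 * u ^ p :=
          mul_le_mul e3 e4 (Real.rpow_nonneg (by positivity) _) zero_le_one
        calc ‖y‖ ^ 2 * M ≤ ‖y‖ ^ 2 * (γ * v ^ p) := mul_le_mul_of_nonneg_left hm2 (sq_nonneg _)
          _ = γ * (‖y‖ ^ (2 - p) * (v * ‖y‖) ^ p) := e1
          _ ≤ γ * (1 * u ^ p) := mul_le_mul_of_nonneg_left e5 hγ.le
          _ = γ * u ^ p := by rw [one_mul]
      have hM1 : M ≤ 1 := hm1.trans hv1
      have e6 : (1 + M) ^ 2 ≤ 1 + 3 * M := by nlinarith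
      have e7 : (‖y‖ * (1 + M)) ^ 2 ≤ ‖y‖ ^ 2 * (1 + 3 * M) := by
        rw [mul_pow]; exact mul_le_mul_of_nonneg_left e6 (sq_nonneg _)
      nlinarith
    · have e1 : ‖y‖ * (1 + M) ≤ 2 * (u * ‖k‖) := by
        have : ‖y‖ * (1 + M) ≤ ‖y‖ * (2 * v) := mul_le_mul_of_nonneg_left (by linarith) hyp.le
        linarith [hvy]
      have e2 : (‖y‖ * (1 + M)) ^ 2 ≤ (2 * (u * ‖k‖)) ^ 2 :=
        pow_le_pow_left₀ (by positivity) e1 2
      nlinarith [sq_nonneg ‖y‖, mul_pos hγ hup0]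
  nlinarith

/-- **The modulus of the sum has power type `p`.** -/
lemma powerType_PX {q : ℕ} (hq : 4 ≤ q) (Y : Type u) [NormedAddCommGroup Y] [NormedSpace ℝ Y]
    {p : ℝ} (hp1 : 1 < p) (hp2 : p ≤ 2) (hY : PowerType Y p) : PowerType (PX q Y) p := by
  obtain ⟨γ, hγ, h⟩ := hY
  have hk1 := kq_ge hq
  refine ⟨kq q + 3 * γ + 5, by linarith, fun u hu => ?_⟩
  have hup0 : 0 < u ^ p := Real.rpow_pos_of_pos hu p
  rcases le_total u 1 with hu1 | hu1
  · have hup : u ^ 2 ≤ u ^ p := by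
      rw [← Real.rpow_two]
      exact Real.rpow_le_rpow_of_exponent_ge hu hu1 hp2
    apply Real.sSup_le _ (by positivity)
    rintro v ⟨z, w, hz, hw, rfl⟩
    have hz2 := norm_sq_PX Y z
    have hw2 := norm_sq_PX Y w
    rw [hz] at hz2
    rw [hw] at hw2
    have h1 := sq_smoothX hq z.fst (u • w.fst)
    have h2 := sq_power hp1 hp2 hγ h z.snd w.snd u hu hu1
      (by have := norm_snd_le Y z; rwa [hz] at this) (by have := norm_snd_le Y w; rwa [hw] at this)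
    have e1 : ‖z + u • w‖ ^ 2 = ‖z.fst + u • w.fst‖ ^ 2 + ‖z.snd + u • w.snd‖ ^ 2 := by
      rw [norm_sq_PX]; rfl
    have e2 : ‖z - u • w‖ ^ 2 = ‖z.fst - u • w.fst‖ ^ 2 + ‖z.snd - u • w.snd‖ ^ 2 := by
      rw [norm_sq_PX]; rfl
    have e3 : ‖u • w.fst‖ ^ 2 ≤ u ^ p := by
      rw [norm_smul, Real.norm_eq_abs, abs_of_pos hu, mul_pow]
      have : u ^ 2 * ‖w.fst‖ ^ 2 ≤ u ^ 2 * 1 :=
        mul_le_mul_of_nonneg_left (by nlinarith [sq_nonneg ‖w.snd‖]) (sq_nonneg u)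
      linarith
    have e4 : 2 * kq q * ‖u • w.fst‖ ^ 2 ≤ 2 * kq q * u ^ p :=
      mul_le_mul_of_nonneg_left e3 (by linarith)
    have e5 : ‖z + u • w‖ ≤ (1 + ‖z + u • w‖ ^ 2) / 2 := by nlinarith [sq_nonneg (‖z + u • w‖ - 1)]
    have e6 : ‖z - u • w‖ ≤ (1 + ‖z - u • w‖ ^ 2) / 2 := by nlinarith [sq_nonneg (‖z - u • w‖ - 1)]
    nlinarith
  · have h1 := modulus_le_self (X := PX q Y) hu
    have h2 : u ≤ u ^ p := by
      calc u = u ^ (1:ℝ) := (Real.rpow_one u).symm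
        _ ≤ u ^ p := Real.rpow_le_rpow_of_exponent_le hu1 hp1.le
    nlinarith

end Pool.Agent.KS6_82.WD
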